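import Pool.Agent.helper81.PJ.Spec

set_option autoImplicit false

open Finset

namespace Pool.Agent.PJ

open Pool.Agent.PY2

theorem PV_lin (l a b n e : ℝ) (hl : 0 < l) (he : 0 < e) (hel : e ≤ l) (h1 : l / 3 + e ≤ n)
    (ha : a ≤ l / 2) (hb : b ≤ l / 2) (hH : 8 * n + 7 / 3 * l + e ≤ 11 * a + 3 * b) :
    0 ≤ 7 * a + 2 * b - 5 * n - 4 / 3 * l - e / 10 ∧ n ≤ 7 / 12 * l ∧
    4 * n + 8 * e / 100 ≤ 2 * (l / 4) + 4 * a ∧
    4 * n + 8 * e / 100 ≤ 2 * (7 * a + 2 * b - 5 * n - 4 / 3 * l - e / 10) + 4 * a ∧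
    3 * n + l + 8 * e / 100 ≤ l / 4 + 4 * a + b ∧
    3 * n + l + 8 * e / 100 ≤ (7 * a + 2 * b - 5 * n - 4 / 3 * l - e / 10) + 4 * a + b ∧
    6 * n + 9 * e / 100 ≤ 6 * a + b := by
  refine ⟨?_, ?_, ?_, ?_, ?_, ?_, ?_⟩ <;> linarith

theorem PV : PV_stmt := by
  intro ε hε hε1
  refine ⟨72 ^ 3, ?_⟩
  intro p hp N X Y hN hX hY hXp hYp hH
  have hp72 : ((72 : ℝ) ^ 3) < p := by exact_mod_cast hp
  have hp0 : (0 : ℝ) < p := by
    have : (0 : ℝ) < 72 ^ 3 := by norm_num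
    linarith
  set l := Real.log (p : ℝ) with hl
  have hl72 : 3 * Real.log 72 < l := by
    have h := Real.log_lt_log (by norm_num : (0 : ℝ) < 72 ^ 3) hp72
    rw [Real.log_pow] at h
    push_cast at h
    exact h
  have hlog72 : 0 < Real.log 72 := Real.log_pos (by norm_num)
  have hlpos : 0 < l := by linarith
  have hpe : ∀ x : ℝ, (p : ℝ) ^ x = Real.exp (l * x) := fun x => Real.rpow_def_of_pos hp0 x
  have hNpos : (0 : ℝ) < N := lt_of_lt_of_le (by rw [hpe]; exact Real.exp_pos _) hN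
  set n := Real.log (N : ℝ) with hn
  set a := Real.log X with ha
  set b := Real.log Y with hb
  have eN : (N : ℝ) = Real.exp n := (Real.exp_log hNpos).symm
  have eX : X = Real.exp a := (Real.exp_log hX).symm
  have eY : Y = Real.exp b := (Real.exp_log hY).symm
  have eP : (p : ℝ) = Real.exp l := (Real.exp_log hp0).symm
  have h1 : l / 3 + ε * l ≤ n := by
    rw [hpe, eN, Real.exp_le_exp] at hN
    linarith
  have h2 : a ≤ l / 2 := by
    rw [hpe, eX, Real.exp_le_exp] at hXp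
    linarith
  have h3 : b ≤ l / 2 := by
    rw [hpe, eY, Real.exp_le_exp] at hYp
    linarith
  have h4 : 8 * n + 7 / 3 * l + ε * l ≤ 11 * a + 3 * b := by
    rw [hpe, eN, eX, eY, ← Real.exp_nat_mul, ← Real.exp_nat_mul, ← Real.exp_nat_mul, ← Real.exp_add, ← Real.exp_add,
      Real.exp_le_exp] at hH
    push_cast at hH
    linarith
  have he : 0 < ε * l := mul_pos hε hlpos
  have hel : ε * l ≤ l := by
    have := mul_le_mul_of_nonneg_right hε1 hlpos.le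
    linarith
  obtain ⟨c0, c1, c2, c3, c4, c5, c6⟩ := PV_lin l a b n (ε * l) hlpos he hel h1 h2 h3 h4
  set w := 7 * a + 2 * b - 5 * n - 4 / 3 * l - ε * l / 10 with hw
  set v := min (l / 4) w with hv
  have hv0 : 0 ≤ v := le_min (by linarith) c0
  have hvl : v ≤ l / 4 := min_le_left _ _
  have hvw : v ≤ w := min_le_right _ _
  obtain ⟨s, hs1, hs2⟩ := exists_nat_pow_near (Real.one_le_exp hv0) (by norm_num : (1 : ℝ) < 2)
  have hs2' : Real.exp v ≤ 2 * 2 ^ s := by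
    rw [pow_succ] at hs2
    linarith
  have hsN : (2 : ℝ) ^ s ≤ N := by
    rw [eN]
    refine le_trans hs1 (Real.exp_le_exp.2 ?_)
    linarith
  have hsNn : 2 ^ s ≤ N := by exact_mod_cast hsN
  have h2s : 0 < 2 ^ s := by positivity
  have hdiv : 1 ≤ N / 2 ^ s := (Nat.one_le_div_iff h2s).2 hsNn
  have hc2 : 4 * n + 8 * (ε * l) / 100 ≤ 2 * v + 4 * a := by
    rcases min_choice (l / 4) w with h | h
    · rw [hv, h]; exact c2
    · rw [hv, h]; exact c3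
  have hc4 : 3 * n + l + 8 * (ε * l) / 100 ≤ v + 4 * a + b := by
    rcases min_choice (l / 4) w with h | h
    · rw [hv, h]; exact c4
    · rw [hv, h]; exact c5
  refine ⟨s, N / 2 ^ s, hdiv, Nat.mul_div_le N (2 ^ s), ?_, ?_, ?_, ?_, ?_, ?_, ?_⟩
  · have h5 := Nat.lt_mul_div_succ N h2s
    have h6 : 2 ^ s * 1 ≤ 2 ^ s * (N / 2 ^ s) := Nat.mul_le_mul_left _ hdiv
    rw [mul_add] at h5
    omega
  · have h5 : (72 : ℝ) * N ≤ p := by
      rw [eN, eP]
      have e72 : (72 : ℝ) = Real.exp (Real.log 72) := (Real.exp_log (by norm_num)).symm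
      have h6 : Real.exp (Real.log 72) * Real.exp n ≤ Real.exp l := by
        rw [← Real.exp_add, Real.exp_le_exp]
        linarith
      rw [← e72] at h6
      exact h6
    exact_mod_cast h5
  · have h5 : ((2 : ℝ) ^ s) ^ 4 ≤ p := by
      have h6 : ((2 : ℝ) ^ s) ^ 4 ≤ (Real.exp v) ^ 4 := pow_le_pow_left₀ (by positivity) hs1 4
      refine le_trans h6 ?_
      rw [← Real.exp_nat_mul, eP, Real.exp_le_exp]
      push_cast
      linarith
    exact_mod_cast h5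
  · have h6 : (Real.exp v) ^ 2 ≤ (2 * 2 ^ s) ^ 2 := pow_le_pow_left₀ (Real.exp_pos _).le hs2' 2
    have h7 : (N : ℝ) ^ 4 * (p : ℝ) ^ (8 * (ε / 100)) ≤ (Real.exp v) ^ 2 * X ^ 4 := by
      rw [hpe, eN, eX, ← Real.exp_nat_mul, ← Real.exp_nat_mul, ← Real.exp_nat_mul, ← Real.exp_add, ← Real.exp_add,
        Real.exp_le_exp]
      push_cast
      linarith
    calc (N : ℝ) ^ 4 * (p : ℝ) ^ (8 * (ε / 100)) ≤ (Real.exp v) ^ 2 * X ^ 4 := h7
      _ ≤ (2 * 2 ^ s) ^ 2 * X ^ 4 := mul_le_mul_of_nonneg_right h6 (by positivity)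
      _ = 4 * ((2 : ℝ) ^ s) ^ 2 * X ^ 4 := by ring
  · have h7 : (N : ℝ) ^ 3 * (p : ℝ) ^ (1 + 8 * (ε / 100)) ≤ Real.exp v * (X ^ 4 * Y) := by
      rw [hpe, eN, eX, eY, ← Real.exp_nat_mul, ← Real.exp_nat_mul, ← Real.exp_add, ← Real.exp_add, ← Real.exp_add,
        Real.exp_le_exp]
      push_cast
      linarith
    calc (N : ℝ) ^ 3 * (p : ℝ) ^ (1 + 8 * (ε / 100)) ≤ Real.exp v * (X ^ 4 * Y) := h7
      _ ≤ (2 * 2 ^ s) * (X ^ 4 * Y) := mul_le_mul_of_nonneg_right hs2' (by positivity)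
      _ = 2 * (2 : ℝ) ^ s * (X ^ 4 * Y) := by ring
  · rw [hpe, eN, eX, eY, ← Real.exp_nat_mul, ← Real.exp_nat_mul, ← Real.exp_add, ← Real.exp_add,
        Real.exp_le_exp]
    push_cast
    linarith
  · have h7 : Real.exp v * (N : ℝ) ^ 5 * (p : ℝ) ^ (4 / 3 + 10 * (ε / 100)) ≤ X ^ 7 * Y ^ 2 := by
      rw [hpe, eN, eX, eY, ← Real.exp_nat_mul, ← Real.exp_nat_mul, ← Real.exp_nat_mul, ← Real.exp_add, ← Real.exp_add,
        ← Real.exp_add, Real.exp_le_exp]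
      push_cast
      linarith
    refine le_trans ?_ h7
    have h8 : (0 : ℝ) ≤ (p : ℝ) ^ (4 / 3 + 10 * (ε / 100)) := by positivity
    exact mul_le_mul_of_nonneg_right (mul_le_mul_of_nonneg_right hs1 (by positivity)) h8

end Pool.Agent.PJ
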